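import Pool.Agent.Helper7.EC_E.GoalsR

/-!
# MP_ecc237_nt, Part E, packet RBt (family B, t-channel).
-/

set_option autoImplicit false

open MeasureTheory Filter Topology Set

namespace EC237.ZE.PkRBt

noncomputable def Fi (i : ℕ) (w : ℂ) (t k : ℤ × ℤ) : ℂ :=
  if InCl 5 k ∧ InCl 5 (t - k) then PowerSeries.coeff i (XX w (k, -1) (t - k, 0)) else 0

noncomputable def Gj (j : ℕ) (w : ℂ) (t k : ℤ × ℤ) : ℂ :=
  if InCl 1 k ∧ InCl 1 (-t - k) then PowerSeries.coeff j (XX w (k, 0) (-t - k, 1)) else 0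

noncomputable def cl (l : ℕ) (w : ℂ) (t : ℤ × ℤ) : ℂ :=
  if InCl 4 t then -(2 / 3 * w ^ 3) * PowerSeries.coeff l (As w (t, -1) * Bs w (t, -1)) else 0

noncomputable def gf (i j l : ℕ) (w : ℂ) (p : Tri) : ℂ :=
  cl l w (p.1 + p.2.1) * Fi i w (p.1 + p.2.1) p.1 * Gj j w (p.1 + p.2.1) p.2.2

/-- `(κ1,κ2,κ3) ↦ (κ2,κ3,κ4)` -/
def ee : Tri ≃ Tri where
  toFun p := (p.2.1, p.2.2, k4 p)
  invFun p := (k4 p, p.1, p.2.1)
  left_inv p := by
    obtain ⟨a, b, c⟩ := p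
    simp only [k4]
    refine Prod.ext ?_ rfl
    simp only
    abel
  right_inv p := by
    obtain ⟨a, b, c⟩ := p
    simp only [k4]
    refine Prod.ext rfl (Prod.ext rfl ?_)
    simp only
    abel

lemma cf0 (A B : PowerSeries ℂ) : PowerSeries.coeff 0 (A * B) =
    PowerSeries.coeff 0 A * PowerSeries.coeff 0 B := by
  rw [PowerSeries.coeff_mul]
  have h0 : Finset.HasAntidiagonal.antidiagonal (0:ℕ) = {(0,0)} := by decide
  rw [h0, Finset.sum_singleton]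

lemma cf1 (A B : PowerSeries ℂ) : PowerSeries.coeff 1 (A * B) =
    PowerSeries.coeff 0 A * PowerSeries.coeff 1 B + PowerSeries.coeff 1 A * PowerSeries.coeff 0 B := by
  rw [PowerSeries.coeff_mul]
  have h0 : Finset.HasAntidiagonal.antidiagonal (1:ℕ) = {(0,1),(1,0)} := by decide
  rw [h0, Finset.sum_pair (by decide)]

lemma cf2 (A B : PowerSeries ℂ) : PowerSeries.coeff 2 (A * B) =
    PowerSeries.coeff 0 A * PowerSeries.coeff 2 B + (PowerSeries.coeff 1 A * PowerSeries.coeff 1 B +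
    PowerSeries.coeff 2 A * PowerSeries.coeff 0 B) := by
  rw [PowerSeries.coeff_mul]
  have h0 : Finset.HasAntidiagonal.antidiagonal (2:ℕ) = {(0,2),(1,1),(2,0)} := by decide
  rw [h0, Finset.sum_insert (by decide), Finset.sum_pair (by decide)]

lemma coeff2 (A B C : PowerSeries ℂ) : PowerSeries.coeff 2 (A * B * C) =
    PowerSeries.coeff 0 A * PowerSeries.coeff 0 B * PowerSeries.coeff 2 C +
    PowerSeries.coeff 0 A * PowerSeries.coeff 1 B * PowerSeries.coeff 1 C +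
    PowerSeries.coeff 1 A * PowerSeries.coeff 0 B * PowerSeries.coeff 1 C +
    PowerSeries.coeff 1 A * PowerSeries.coeff 1 B * PowerSeries.coeff 0 C +
    PowerSeries.coeff 2 A * PowerSeries.coeff 0 B * PowerSeries.coeff 0 C +
    PowerSeries.coeff 0 A * PowerSeries.coeff 2 B * PowerSeries.coeff 0 C := by
  rw [cf2, cf2, cf1, cf0]
  ring

lemma key (w : ℂ) (p : Tri) : famB (cQt w) p = gf 0 0 2 w (ee p) + gf 0 1 1 w (ee p) +
    gf 1 0 1 w (ee p) + gf 1 1 0 w (ee p) + gf 2 0 0 w (ee p) + gf 0 2 0 w (ee p) := by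
  obtain ⟨a, b, c⟩ := p
  have e1 : b + c - b = c := by abel
  have e2 : -(b + c) - -(a + b + c) = a := by abel
  by_cases h : ClT 1 5 5 (a, b, c)
  · obtain ⟨h1, h2, h3⟩ := h
    simp only at h1 h2 h3
    have h4 : InCl 1 (-(a + b + c)) := by
      simp only [InCl, Prod.fst_add, Prod.snd_add, Prod.fst_neg, Prod.snd_neg] at *
      omega
    have h5 : InCl 4 (b + c) := by
      simp only [InCl, Prod.fst_add, Prod.snd_add] at *
      omega
    have hf : famB (cQt w) (a, b, c) = cQt w (a, 1) (b, -1) (c, 0) (k4 (a, b, c), 0) :=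
      if_pos ⟨h1, h2, h3⟩
    rw [hf]
    simp only [gf, cl, Fi, Gj, ee, Equiv.coe_fn_mk, k4, e1, e2, h1, h2, h3, h4, h5, and_self,
      if_true]
    simp only [cQt, Qs, Prod.mk_add_mk]
    rw [show (-1 + 0 : ℤ) = -1 from by norm_num, map_smul, coeff2, smul_eq_mul]
    ring
  · have hf : famB (cQt w) (a, b, c) = 0 := if_neg h
    rw [hf]
    have hz : ∀ i j l : ℕ, gf i j l w (ee (a, b, c)) = 0 := by
      intro i j l
      simp only [gf, Fi, Gj, ee, Equiv.coe_fn_mk, k4, e1, e2]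
      by_cases h1 : InCl 1 a
      · by_cases h23 : InCl 5 b ∧ InCl 5 c
        · exact absurd ⟨h1, h23.1, h23.2⟩ h
        · simp [h23]
      · simp [h1]
    rw [hz, hz, hz, hz, hz, hz]; ring

lemma rk_neg (t : ℤ × ℤ) : rk (-t) = rk t := by
  simp [rk]

lemma rk_ge {t : ℤ × ℤ} (h : t ≠ 0) : 1 ≤ rk t := by
  rw [rk, Real.one_le_sqrt]
  have : 1 ≤ t.1 ^ 2 + t.2 ^ 2 := by
    by_contra hc
    have h1 : t.1 ^ 2 + t.2 ^ 2 = 0 := by
      have a := sq_nonneg t.1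
      have b := sq_nonneg t.2
      omega
    have h2 : t.1 = 0 := by nlinarith [sq_nonneg t.1, sq_nonneg t.2]
    have h3 : t.2 = 0 := by nlinarith [sq_nonneg t.1, sq_nonneg t.2]
    exact h (Prod.ext h2 h3)
  exact_mod_cast this

lemma pw_nn (t : ℤ × ℤ) : 0 ≤ pw t := Real.rpow_nonneg (Real.sqrt_nonneg _) _

lemma ne_of_cl {r : ℤ} {t : ℤ × ℤ} (hr : r = 1 ∨ r = 4 ∨ r = 5) (h : InCl r t) : t ≠ 0 := by
  rintro rfl
  rcases hr with rfl | rfl | rfl <;> simp [InCl] at h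

lemma bX {w : ℂ} {C : ℝ} (hB : ∀ v1 v2 : SV, |v1.2| ≤ 1 → |v2.2| ≤ 1 → v1.1 ≠ 0 → v2.1 ≠ 0 →
    v1.1 + v2.1 ≠ 0 →
    ‖PowerSeries.coeff 0 (XX w v1 v2)‖ ≤ C * rk (v1.1 + v2.1) ^ (1 / 2 : ℝ) * (pw v1.1 + pw v2.1) ∧
    ‖PowerSeries.coeff 1 (XX w v1 v2)‖ ≤ C * rk (v1.1 + v2.1) ^ (-(1 / 2) : ℝ) * (pw v1.1 + pw v2.1) ∧
    ‖PowerSeries.coeff 2 (XX w v1 v2)‖ ≤ C * rk (v1.1 + v2.1) ^ (-1 : ℝ) * (pw v1.1 + pw v2.1))
    (i : ℕ) (hi : i ≤ 2) (a b : ℤ × ℤ) (s s' : ℤ) (hs : |s| ≤ 1) (hs' : |s'| ≤ 1) (ha : a ≠ 0)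
    (hb : b ≠ 0) (hab : a + b ≠ 0) :
    ‖PowerSeries.coeff i (XX w (a, s) (b, s'))‖ ≤ C * rk (a + b) ^ (ex3 i) * (pw a + pw b) := by
  obtain ⟨h0, h1, h2⟩ := hB (a, s) (b, s') hs hs' ha hb hab
  interval_cases i
  · simpa [ex3] using h0
  · simpa [ex3] using h1
  · simpa [ex3] using h2

lemma summ (h3 : EC237.B2) (h4 : EC237.B4) {y : ℝ} (hy : 0 < y) (i j l : ℕ) (h : i + j + l = 2) :
    Summable (gf i j l (y:ℂ)) := by
  obtain ⟨C, hC, hh⟩ := h3 y hy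
  have hmem : (y:ℂ) ∈ Bd y := Metric.mem_ball_self (by positivity)
  obtain ⟨hX, hA⟩ := hh _ hmem
  set N : ℝ := ‖(-(2 / 3 * (y:ℂ) ^ 3))‖ with hN
  have hNn : 0 ≤ N := norm_nonneg _
  refine Summable.of_norm_bounded (g := fun p : Tri => N * C ^ 3 *
    (pw (p.1 + p.2.1) * (pw p.1 + pw p.2.1) * (pw p.2.2 + pw (k4 p)))) (h4.2.1.mul_left _) ?_
  rintro ⟨a, b, c⟩
  have e1 : a + b - a = b := by abel
  have e2 : -(a + b) - c = k4 (a, b, c) := by simp only [k4]; abel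
  have hnn : 0 ≤ N * C ^ 3 * (pw (a + b) * (pw a + pw b) * (pw c + pw (k4 (a, b, c)))) := by
    have := pw_nn (a + b); have := pw_nn a; have := pw_nn b; have := pw_nn c
    have := pw_nn (k4 (a, b, c))
    positivity
  simp only [gf, e1, e2, cl, Fi, Gj]
  by_cases c4 : InCl 4 (a + b)
  swap
  · rw [if_neg c4]; simpa using hnn
  by_cases c5 : InCl 5 a ∧ InCl 5 b
  swap
  · rw [if_neg c5]; simpa using hnn
  by_cases c1 : InCl 1 c ∧ InCl 1 (k4 (a, b, c))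
  swap
  · rw [if_neg c1]; simpa using hnn
  rw [if_pos c4, if_pos c5, if_pos c1]
  have n0 := ne_of_cl (Or.inr (Or.inl rfl)) c4
  have na := ne_of_cl (Or.inr (Or.inr rfl)) c5.1
  have nb := ne_of_cl (Or.inr (Or.inr rfl)) c5.2
  have nc := ne_of_cl (Or.inl rfl) c1.1
  have nd := ne_of_cl (Or.inl rfl) c1.2
  have e3 : c + k4 (a, b, c) = -(a + b) := by rw [← e2]; abel
  have ncd : c + k4 (a, b, c) ≠ 0 := by rw [e3]; exact neg_ne_zero.2 n0
  have hR := rk_ge n0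
  have b1 := bX hX i (by omega) a b (-1) 0 (by norm_num) (by norm_num) na nb n0
  have b2 := bX hX j (by omega) c (k4 (a, b, c)) 0 1 (by norm_num) (by norm_num) nc nd ncd
  have b3 := hA (a + b, -1) (by norm_num) n0 l (by omega)
  rw [e3, rk_neg] at b2
  simp only at b3
  set R := rk (a + b) with hRd
  have R0 : 0 < R := lt_of_lt_of_le one_pos hR
  have p1 : 0 ≤ pw a + pw b := add_nonneg (pw_nn _) (pw_nn _)
  have p2 : 0 ≤ pw c + pw (k4 (a, b, c)) := add_nonneg (pw_nn _) (pw_nn _)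
  have q1 : 0 ≤ R ^ (ex3 i) := Real.rpow_nonneg R0.le _
  have q2 : 0 ≤ R ^ (ex3 j) := Real.rpow_nonneg R0.le _
  have q3 : 0 ≤ R ^ (-(2 + (l:ℝ))) := Real.rpow_nonneg R0.le _
  have hexp : R ^ (-(2 + (l:ℝ))) * R ^ (ex3 i) * R ^ (ex3 j) ≤ pw (a + b) := by
    rw [← Real.rpow_add R0, ← Real.rpow_add R0, pw]
    apply Real.rpow_le_rpow_of_exponent_le hR
    have hi : i ≤ 2 := by omega
    have hj : j ≤ 2 := by omega
    have hl : l = 2 - i - j := by omega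
    subst hl
    interval_cases i <;> interval_cases j <;> simp at h <;> norm_num [ex3]
  calc ‖-(2 / 3 * (y:ℂ) ^ 3) * PowerSeries.coeff l (As (y:ℂ) (a + b, -1) * Bs (y:ℂ) (a + b, -1)) *
        PowerSeries.coeff i (XX (y:ℂ) (a, -1) (b, 0)) *
        PowerSeries.coeff j (XX (y:ℂ) (c, 0) (k4 (a, b, c), 1))‖
      = N * ‖PowerSeries.coeff l (As (y:ℂ) (a + b, -1) * Bs (y:ℂ) (a + b, -1))‖ *
        ‖PowerSeries.coeff i (XX (y:ℂ) (a, -1) (b, 0))‖ *
        ‖PowerSeries.coeff j (XX (y:ℂ) (c, 0) (k4 (a, b, c), 1))‖ := by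
        rw [norm_mul, norm_mul, norm_mul]
    _ ≤ N * (C * R ^ (-(2 + (l:ℝ)))) * (C * R ^ (ex3 i) * (pw a + pw b)) *
        (C * R ^ (ex3 j) * (pw c + pw (k4 (a, b, c)))) := by
        gcongr
    _ = N * C ^ 3 * ((R ^ (-(2 + (l:ℝ))) * R ^ (ex3 i) * R ^ (ex3 j)) * (pw a + pw b) *
        (pw c + pw (k4 (a, b, c)))) := by ring
    _ ≤ N * C ^ 3 * (pw (a + b) * (pw a + pw b) * (pw c + pw (k4 (a, b, c)))) := by
        gcongr

lemma tsF (i : ℕ) (w : ℂ) (t : ℤ × ℤ) : ∑' k, Fi i w t k = XS 5 5 (-1) 0 i w t := rfl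

lemma tsG (j : ℕ) (w : ℂ) (t : ℤ × ℤ) : ∑' k, Gj j w t k = XS 1 1 0 1 j w (-t) := rfl

lemma c0 (y : ℝ) (t : ℤ × ℤ) (a : ℤ) : PowerSeries.coeff 0 (As (y:ℂ) (t, a) * Bs (y:ℂ) (t, a)) =
    1 / (Nn y t : ℂ) := by
  have h : KA (y:ℂ) t * KB (y:ℂ) t = (Nn y t : ℂ) := by
    simp only [KA, KB, Nn]
    push_cast
    linear_combination (-(t.2:ℂ) ^ 2 * (y:ℂ) ^ 2) * Complex.I_sq
  rw [cf0, ← h]
  simp [As, Bs, gser, mul_inv, mul_comm]

theorem thm (h1 : EC237.A1) (h2 : EC237.B1) (h3 : EC237.B2) (h4 : EC237.B4) (h5 : EC237.ZE.G_R0)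
    (h6 : EC237.ZE.G_RS) (h7 : EC237.ZE.G_RY) : EC237.ZE.G_RBt := by
  intro y hy
  set w : ℂ := (y:ℂ) with hw
  have S := fun i j l h => summ h3 h4 hy i j l h
  have S1 := S 0 0 2 rfl
  have S2 := S 0 1 1 rfl
  have S3 := S 1 0 1 rfl
  have S4 := S 1 1 0 rfl
  have S5 := S 2 0 0 rfl
  have S6 := S 0 2 0 rfl
  have hfun : famB (cQt w) = (fun p => gf 0 0 2 w p + gf 0 1 1 w p +
    gf 1 0 1 w p + gf 1 1 0 w p + gf 2 0 0 w p + gf 0 2 0 w p) ∘ ee := funext (key w)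
  have S12 := S1.add S2
  have S123 := S12.add S3
  have S1234 := S123.add S4
  have S12345 := S1234.add S5
  have Sall := S12345.add S6
  have hzero : ∀ i j l : ℕ, (i = 0 ∨ j = 0) → ∑' p, gf i j l w p = 0 ∨ ¬ Summable (gf i j l w) := by
    intro i j l hij
    by_cases hs : Summable (gf i j l w)
    · left
      have := (h5 (cl l w) (Fi i w) (Gj j w) hs).2
      rw [show (∑' p, gf i j l w p) = ∑' p : Tri, cl l w (p.1 + p.2.1) * Fi i w (p.1 + p.2.1) p.1 *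
        Gj j w (p.1 + p.2.1) p.2.2 from rfl, this]
      have hz : ∀ s : ℤ × ℤ, cl l w s * (∑' k, Fi i w s k) * (∑' k, Gj j w s k) = 0 := by
        intro s
        by_cases hc : InCl 4 s
        · have ns := ne_of_cl (Or.inr (Or.inl rfl)) hc
          have r1 := h7 y hy s ns
          have r2 := h7 y hy (-s) (neg_ne_zero.2 ns)
          rw [tsF, tsG]
          rcases hij with rfl | rfl
          · rw [r1.2.2.2.1]; ring
          · rw [r2.2.2.2.2.2.1]; ring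
        · simp [cl, hc]
      simp only [hz, tsum_zero]
    · right; exact hs
  have z : ∀ i j l : ℕ, i + j + l = 2 → (i = 0 ∨ j = 0) → ∑' p, gf i j l w p = 0 := by
    intro i j l h hij
    rcases hzero i j l hij with h | h'
    · exact h
    · exact absurd (S i j l h) h'
  have main := h5 (cl 0 w) (Fi 1 w) (Gj 1 w) S4
  have hterm : ∀ s : ℤ × ℤ, cl 0 w s * (∑' k, Fi 1 w s k) * (∑' k, Gj 1 w s k) =
      (2 / 3 * w ^ 3) * (if InCl 2 (-s) then Yv w (-s) * Yv w (-s) / (Nn y (-s) : ℂ) else 0) := by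
    intro s
    by_cases hc : InCl 4 s
    · have ns := ne_of_cl (Or.inr (Or.inl rfl)) hc
      have r1 := h7 y hy s ns
      have r2 := h7 y hy (-s) (neg_ne_zero.2 ns)
      have hc2 : InCl 2 (-s) := by
        simp only [InCl, Prod.fst_neg, Prod.snd_neg] at *
        omega
      rw [tsF, tsG, r1.2.2.2.2.1, r2.2.2.2.2.2.2.1, cl, if_pos hc, if_pos hc2, c0]
      have : Nn y (-s) = Nn y s := by simp [Nn]
      rw [this]
      ring
    · have hc2 : ¬ InCl 2 (-s) := by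
        intro h
        apply hc
        simp only [InCl, Prod.fst_neg, Prod.snd_neg] at *
        omega
      rw [cl, if_neg hc, if_neg hc2]
      ring
  have m1 : Summable (fun s : ℤ × ℤ => (2 / 3 * w ^ 3) *
      (if InCl 2 (-s) then Yv w (-s) * Yv w (-s) / (Nn y (-s) : ℂ) else 0)) := by
    have := main.1
    simp only [hterm] at this
    exact this
  have w0 : (2 / 3 * w ^ 3 : ℂ) ≠ 0 := by
    have hw0 : w ≠ 0 := by rw [hw]; exact_mod_cast hy.ne'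
    exact mul_ne_zero (by norm_num) (pow_ne_zero 3 hw0)
  have m2 : Summable (fun s : ℤ × ℤ =>
      (if InCl 2 (-s) then Yv w (-s) * Yv w (-s) / (Nn y (-s) : ℂ) else 0)) := by
    have := m1.mul_left (2 / 3 * w ^ 3)⁻¹
    refine this.congr (fun s => ?_)
    rw [← mul_assoc, inv_mul_cancel₀ w0, one_mul]
  have m3 : Summable (fun s : ℤ × ℤ => if InCl 2 s then Yv w s * Yv w s / (Nn y s : ℂ) else 0) := by
    have := (Equiv.neg (ℤ × ℤ)).summable_iff.2 m2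
    refine this.congr (fun s => ?_)
    simp only [Function.comp, Equiv.neg_apply, neg_neg]
  refine ⟨?_, m3, ?_⟩
  · rw [hfun]
    exact ee.summable_iff.2 Sall
  · rw [hfun]
    have e0 : ∑' p : Tri, ((fun p => gf 0 0 2 w p + gf 0 1 1 w p +
        gf 1 0 1 w p + gf 1 1 0 w p + gf 2 0 0 w p + gf 0 2 0 w p) ∘ ee) p =
        ∑' p : Tri, (gf 0 0 2 w p + gf 0 1 1 w p +
        gf 1 0 1 w p + gf 1 1 0 w p + gf 2 0 0 w p + gf 0 2 0 w p) :=
      ee.tsum_eq (fun p => gf 0 0 2 w p + gf 0 1 1 w p +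
        gf 1 0 1 w p + gf 1 1 0 w p + gf 2 0 0 w p + gf 0 2 0 w p)
    rw [e0, S12345.tsum_add S6, S1234.tsum_add S5, S123.tsum_add S4, S12.tsum_add S3, S1.tsum_add S2,
      z 0 0 2 rfl (Or.inl rfl), z 0 1 1 rfl (Or.inl rfl), z 1 0 1 rfl (Or.inr rfl),
      z 2 0 0 rfl (Or.inr rfl), z 0 2 0 rfl (Or.inl rfl)]
    have e1 : ∑' p, gf 1 1 0 w p = ∑' s : ℤ × ℤ, (2 / 3 * w ^ 3) *
      (if InCl 2 (-s) then Yv w (-s) * Yv w (-s) / (Nn y (-s) : ℂ) else 0) := by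
      rw [show (∑' p, gf 1 1 0 w p) = ∑' p : Tri, cl 0 w (p.1 + p.2.1) * Fi 1 w (p.1 + p.2.1) p.1 *
        Gj 1 w (p.1 + p.2.1) p.2.2 from rfl, main.2]
      exact tsum_congr hterm
    rw [e1, tsum_mul_left]
    have e2 := (Equiv.neg (ℤ × ℤ)).tsum_eq (fun s : ℤ × ℤ =>
      if InCl 2 s then Yv w s * Yv w s / (Nn y s : ℂ) else 0)
    simp only [Equiv.neg_apply] at e2
    rw [e2]
    ring

end EC237.ZE.PkRBt
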